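import Pool.Agent.T9h51.QL.CountL

set_option autoImplicit false
set_option linter.unusedSectionVars false

/-!
# QL, piece (S1L) with the linear factor `1 - p`
-/

namespace Pool.Agent.T9h51.QL

open Finset Pool.Agent.T9h34.Q Pool.Agent.T9h16.QL Pool.Agent.T9h51.QC
open Pool.Agent.PC34 (prob withClique labelGraph)
open Pool.Agent.T9h34 (graphInput)
open Pool.Agent.T9h34.P (gr)

/-- (S1L) with the factor `1 - p` -/
theorem stCountL1 : ∃ c : ℝ, 0 < c ∧ ∀ n k a L : ℕ, 2 ≤ k → k ^ 2 ≤ n → 1 ≤ a → a ≤ L →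
    ∃ θ : ℝ,
    prob (fun lab : Sym2 (Fin n) → Fin L =>
      θ ≤ ∑ p : Fin n × Fin n, (if graphInput (labelGraph lab a) p = true then (1 : ℝ) else 0)) +
      c * (1 - (a : ℝ) / L) * (k ^ 2 / n) ≤
    prob (fun x : (Sym2 (Fin n) → Fin L) × {S : Finset (Fin n) // S.card = k} =>
      θ ≤ ∑ p : Fin n × Fin n,
        (if graphInput (withClique (labelGraph x.1 a) x.2.1) p = true then (1 : ℝ) else 0)) := by
  classical
  refine ⟨1 / 32, by norm_num, ?_⟩
  intro n k a L hk hkn ha haL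
  have hL : 0 < L := by omega
  have hLr : (0 : ℝ) < L := by exact_mod_cast hL
  have hn4 : 4 ≤ n := by nlinarith
  have hnr : (4 : ℝ) ≤ n := by exact_mod_cast hn4
  have hkr : (2 : ℝ) ≤ k := by exact_mod_cast hk
  have hknr : (k : ℝ) ^ 2 ≤ n := by exact_mod_cast hkn
  have hkn' : k ≤ n := by nlinarith
  set p : ℝ := (a : ℝ) / L with hp
  have hp1 : p ≤ 1 := by
    rw [hp, div_le_one hLr]
    exact_mod_cast haL
  have hp0 : 0 ≤ p := by positivity
  set XX := {S : Finset (Fin n) // S.card = k} with hXX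
  have hne : Nonempty XX := by
    obtain ⟨S, hS⟩ := Finset.exists_subset_card_eq (s := (univ : Finset (Fin n))) (n := k)
      (by rw [card_univ, Fintype.card_fin]; exact hkn')
    exact ⟨⟨S, hS.2⟩⟩
  have hneF : Nonempty (Fin L) := ⟨⟨0, hL⟩⟩
  set CU : ℝ := ((Fintype.card (Sym2 (Fin n) → Fin L) : ℕ) : ℝ) with hCU
  set CX : ℝ := ((Fintype.card XX : ℕ) : ℝ) with hCX
  have hCU0 : 0 < CU := by rw [hCU]; exact_mod_cast Fintype.card_pos
  have hCX0 : 0 < CX := by rw [hCX]; exact_mod_cast Fintype.card_pos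
  set M : ℕ := k * k - k with hM
  have hMr : (M : ℝ) = k * k - k := by
    rw [hM, Nat.cast_sub (Nat.le_mul_self k), Nat.cast_mul]
  have hmean0 : 0 ≤ ((n : ℝ) * n - n) * p := mul_nonneg (by nlinarith) hp0
  set μ : ℕ := ⌊((n : ℝ) * n - n) * p⌋₊ with hμ
  have hμ1 : (μ : ℝ) ≤ ((n : ℝ) * n - n) * p := Nat.floor_le hmean0
  have hμ2 : ((n : ℝ) * n - n) * p < μ + 1 := Nat.lt_floor_add_one _
  set lo := μ - 2 * n with hlo
  set hi := μ + 3 * n + 1 with hhi
  -- the bad outcomes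
  have hbad : ∀ (lab : Sym2 (Fin n) → Fin L) (S : XX),
      (xn (low lab a) + 1 < lo ∨ hi < yn (low lab a) S.1) → 2 * (n : ℝ) < |ZL a lab| := by
    intro lab S h
    have h1 := xnL_eq (a := a) lab
    rw [← hp] at h1
    rcases h with h | h
    · have h2 : xn (low lab a) + 1 + 2 * n < μ := by omega
      have h3 : (xn (low lab a) : ℝ) + 1 + 2 * n < μ := by exact_mod_cast h2
      rw [lt_abs]
      right
      linarith
    · have h2 := (yn_bounds (low lab a) S.1).2
      rw [S.2] at h2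
      have h3 : μ + 3 * n + 1 < xn (low lab a) + M := by omega
      have h4 : (μ : ℝ) + 3 * n + 1 < xn (low lab a) + M := by exact_mod_cast h3
      rw [lt_abs]
      left
      nlinarith
  -- the sum over all outcomes and all thresholds
  have hsum : (1 - p) / 2 * M * (CU * CX) ≤ ∑ θ ∈ Icc lo hi, ∑ x : (Sym2 (Fin n) → Fin L) × XX,
      ((if θ ≤ yn (low x.1 a) x.2.1 then (1 : ℝ) else 0) -
        if θ ≤ xn (low x.1 a) then 1 else 0) := by
    rw [sum_comm]
    have h1 : ∀ x : (Sym2 (Fin n) → Fin L) × XX,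
        ((yn (low x.1 a) x.2.1 : ℝ) - xn (low x.1 a)) -
        M * (if 2 * (n : ℝ) < |ZL a x.1| then 1 else 0) ≤
        ∑ θ ∈ Icc lo hi, ((if θ ≤ yn (low x.1 a) x.2.1 then (1 : ℝ) else 0) -
          if θ ≤ xn (low x.1 a) then 1 else 0) := by
      intro x
      have h2 := yn_bounds (low x.1 a) x.2.1
      rw [x.2.2] at h2
      refine le_trans ?_ (one_outcome (xn (low x.1 a)) (yn (low x.1 a) x.2.1) M lo hi h2.1 h2.2)
      refine sub_le_sub_left (mul_le_mul_of_nonneg_left ?_ (Nat.cast_nonneg M)) _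
      by_cases h3 : xn (low x.1 a) + 1 < lo ∨ hi < yn (low x.1 a) x.2.1
      · rw [if_pos h3, if_pos (hbad x.1 x.2 h3)]
      · rw [if_neg h3]
        split_ifs <;> norm_num
    refine le_trans ?_ (sum_le_sum fun x _ => h1 x)
    rw [sum_sub_distrib, ← mul_sum, Fintype.sum_prod_type_right, Fintype.sum_prod_type]
    have h3 : ∑ S : XX, ∑ lab : Sym2 (Fin n) → Fin L,
        ((yn (low lab a) S.1 : ℝ) - xn (low lab a)) = M * (1 - p) * CU * CX := by
      have h4 : ∀ S : XX, ∑ lab : Sym2 (Fin n) → Fin L,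
          ((yn (low lab a) S.1 : ℝ) - xn (low lab a)) = M * (1 - p) * CU := by
        intro S
        rw [sum_DL hL haL, S.2, hMr]
      simp only [h4]
      rw [sum_const, card_univ, nsmul_eq_mul]
      ring
    have h5 : ∑ lab : Sym2 (Fin n) → Fin L, ∑ _S : XX,
        (if 2 * (n : ℝ) < |ZL a lab| then (1 : ℝ) else 0) ≤ (1 - p) * CU / 2 * CX := by
      simp only [sum_const, card_univ, nsmul_eq_mul]
      rw [← mul_sum, Finset.sum_boole]
      have := card_badL (n := n) (a := a) (L := L) (by omega) hL haL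
      rw [← hp, ← hCU] at this
      nlinarith
    have h6 : (0 : ℝ) ≤ M := Nat.cast_nonneg M
    have h7 := mul_le_mul_of_nonneg_left h5 h6
    show _ ≤ ∑ S : XX, ∑ lab : Sym2 (Fin n) → Fin L,
        ((yn (low lab a) S.1 : ℝ) - xn (low lab a)) -
      M * ∑ lab : Sym2 (Fin n) → Fin L, ∑ _S : XX,
        (if 2 * (n : ℝ) < |ZL a lab| then (1 : ℝ) else 0)
    rw [h3]
    linarith
  -- a good threshold
  have hcard : ((Icc lo hi).card : ℝ) ≤ 6 * n := by
    rw [Nat.card_Icc]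
    have : hi + 1 - lo ≤ 6 * n := by omega
    exact_mod_cast this
  obtain ⟨θ, hθ, hθ2⟩ : ∃ θ ∈ Icc lo hi, M * (1 - p) / (12 * n) * (CU * CX) ≤
      ∑ x : (Sym2 (Fin n) → Fin L) × XX,
        ((if θ ≤ yn (low x.1 a) x.2.1 then (1 : ℝ) else 0) -
          if θ ≤ xn (low x.1 a) then 1 else 0) := by
    by_contra hcon
    push Not at hcon
    have hIne : (Icc lo hi).Nonempty := ⟨hi, mem_Icc.mpr ⟨by omega, le_refl _⟩⟩
    have h1 := sum_lt_sum_of_nonempty hIne hcon
    rw [sum_const, nsmul_eq_mul] at h1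
    have h0 : 0 ≤ M * (1 - p) / (12 * n) * (CU * CX) :=
      mul_nonneg (div_nonneg (mul_nonneg (Nat.cast_nonneg _) (by linarith)) (by positivity))
        (by positivity)
    have h2 : ((Icc lo hi).card : ℝ) * (M * (1 - p) / (12 * n) * (CU * CX)) ≤
        6 * n * (M * (1 - p) / (12 * n) * (CU * CX)) := mul_le_mul_of_nonneg_right hcard h0
    have h3 : 6 * n * (M * (1 - p) / (12 * n) * (CU * CX)) = (1 - p) / 2 * M * (CU * CX) := by
      field_simp
      ring
    linarith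
  refine ⟨θ, ?_⟩
  simp only [labelGraph_eq, sum_x, sum_y, Nat.cast_le]
  rw [prob_eq2, prob_eq2]
  rw [sum_sub_distrib] at hθ2
  rw [Fintype.card_prod, Nat.cast_mul, ← hCU, ← hCX]
  have h7 : ∑ x : (Sym2 (Fin n) → Fin L) × XX, (if θ ≤ xn (low x.1 a) then (1 : ℝ) else 0) =
      CX * ∑ lab : Sym2 (Fin n) → Fin L, (if θ ≤ xn (low lab a) then (1 : ℝ) else 0) := by
    rw [Fintype.sum_prod_type, mul_sum]
    refine sum_congr rfl fun U _ => ?_
    show ∑ _S : XX, (if θ ≤ xn (low U a) then (1 : ℝ) else 0) = _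
    rw [sum_const, card_univ, nsmul_eq_mul]
  rw [h7] at hθ2
  have h8 : (k : ℝ) ^ 2 / 2 ≤ M := by
    rw [hMr]
    nlinarith
  rw [div_add' _ _ _ hCU0.ne', div_le_div_iff₀ hCU0 (mul_pos hCU0 hCX0)]
  have h9 : 1 / 32 * (1 - p) * ((k : ℝ) ^ 2 / n) ≤ M * (1 - p) / (12 * n) := by
    have h13 : (k : ℝ) ^ 2 / 2 * (1 - p) / (12 * n) ≤ M * (1 - p) / (12 * n) := by
      apply div_le_div_of_nonneg_right _ (by positivity)
      exact mul_le_mul_of_nonneg_right h8 (by linarith)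
    refine le_trans ?_ h13
    have h14 : (k : ℝ) ^ 2 / 2 * (1 - p) / (12 * n) = 1 / 24 * (1 - p) * ((k : ℝ) ^ 2 / n) := by
      field_simp
      ring
    rw [h14]
    gcongr
    · linarith
  have h10 : 1 / 32 * (1 - p) * ((k : ℝ) ^ 2 / n) * (CU * CX) ≤
      M * (1 - p) / (12 * n) * (CU * CX) :=
    mul_le_mul_of_nonneg_right h9 (by positivity)
  nlinarith [hθ2, h10]

end Pool.Agent.T9h51.QL
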