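import Pool.Agent.T9h16.QL.Spec2
import Pool.Agent.T9h51.QC.Count

set_option autoImplicit false
set_option linter.unusedSectionVars false

/-!
# QL, piece (S1L): counting the edges, every density
-/

namespace Pool.Agent.T9h51.QL

open Finset Pool.Agent.T9h34.Q Pool.Agent.T9h16.QL Pool.Agent.T9h51.QC
open Pool.Agent.PC34 (prob withClique labelGraph)
open Pool.Agent.T9h34 (graphInput)
open Pool.Agent.T9h34.P (gr)

section lab

variable {E : Type} [Fintype E] [DecidableEq E] {L : ℕ}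

theorem sum_one (e : E) (g : Fin L → ℝ) (hg : ∑ i, g i = 0) : ∑ lab : E → Fin L, g (lab e) = 0 := by
  have h1 := Finset.prod_univ_sum (fun _ : E => (univ : Finset (Fin L)))
    (fun e' i => if e' = e then g i else (1 : ℝ))
  rw [prod_eq_zero (mem_univ e) (by simpa using hg), Fintype.piFinset_univ] at h1
  rw [h1]
  refine sum_congr rfl fun lab _ => ?_
  rw [prod_ite_eq']
  simp

theorem sum_two {e e' : E} (h : e ≠ e') (g : Fin L → ℝ) (hg : ∑ i, g i = 0) :
    ∑ lab : E → Fin L, g (lab e) * g (lab e') = 0 := by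
  have h1 := Finset.prod_univ_sum (fun _ : E => (univ : Finset (Fin L)))
    (fun x i => (if x = e then g i else (1 : ℝ)) * (if x = e' then g i else (1 : ℝ)))
  rw [prod_eq_zero (mem_univ e) (by simpa [h] using hg), Fintype.piFinset_univ] at h1
  rw [h1]
  refine sum_congr rfl fun lab _ => ?_
  rw [prod_mul_distrib, prod_ite_eq', prod_ite_eq']
  simp

/-- `1 - p` or `- p` -/
noncomputable def v (a L : ℕ) (i : Fin L) : ℝ := (if (i : ℕ) < a then 1 else 0) - (a : ℝ) / L

theorem sum_v {a L : ℕ} (hL : 0 < L) (haL : a ≤ L) : ∑ i, v a L i = 0 := by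
  have hLr : (L : ℝ) ≠ 0 := by exact_mod_cast hL.ne'
  unfold v
  rw [sum_sub_distrib, sum_const, card_univ, Fintype.card_fin, nsmul_eq_mul]
  have h1 : ∑ i : Fin L, (if (i : ℕ) < a then (1 : ℝ) else 0) = a := by
    rw [Fin.sum_univ_eq_sum_range (fun i => if i < a then (1 : ℝ) else 0) L, Finset.sum_boole]
    have h2 : (range L).filter (fun i => i < a) = range a := by
      ext i
      simp only [mem_filter, mem_range]
      omega
    rw [h2, card_range]
  rw [h1]
  field_simp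
  ring

theorem v_sq {a L : ℕ} (i : Fin L) : v a L i * v a L i =
    (1 - 2 * ((a : ℝ) / L)) * v a L i + (a : ℝ) / L * (1 - (a : ℝ) / L) := by
  unfold v
  split_ifs <;> ring

end lab

section counts

variable {n a L : ℕ}

/-- the deviation from the mean -/
noncomputable def ZL (a : ℕ) (lab : Sym2 (Fin n) → Fin L) : ℝ :=
  ∑ p ∈ (univ : Finset (Fin n)).offDiag, v a L (lab s(p.1, p.2))

theorem mem_low {lab : Sym2 (Fin n) → Fin L} {e : Sym2 (Fin n)} : e ∈ low lab a ↔ (lab e : ℕ) < a := by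
  simp [low]

theorem xnL_eq (lab : Sym2 (Fin n) → Fin L) :
    (xn (low lab a) : ℝ) = ((n : ℝ) * n - n) * ((a : ℝ) / L) + ZL a lab := by
  unfold xn ZL
  rw [← Finset.sum_boole, ← card_off, ← nsmul_eq_mul, ← sum_const, ← sum_add_distrib]
  refine sum_congr rfl fun p _ => ?_
  unfold v
  simp only [mem_low]
  ring

theorem ynL_eq (lab : Sym2 (Fin n) → Fin L) (S : Finset (Fin n)) :
    (yn (low lab a) S : ℝ) = xn (low lab a) +
      ∑ p ∈ S.offDiag, (1 - (a : ℝ) / L - v a L (lab s(p.1, p.2))) := by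
  have h1 : S.offDiag = (univ : Finset (Fin n)).offDiag.filter (fun p => p.1 ∈ S ∧ p.2 ∈ S) := by
    ext p
    simp only [mem_offDiag, mem_filter, mem_univ, true_and]
    tauto
  unfold yn xn
  rw [h1, ← Finset.sum_boole, ← Finset.sum_boole, sum_filter, ← sum_add_distrib]
  refine sum_congr rfl fun p _ => ?_
  unfold v
  simp only [mem_low]
  by_cases h2 : (lab s(p.1, p.2) : ℕ) < a <;> by_cases h3 : p.1 ∈ S ∧ p.2 ∈ S <;> simp [h2, h3]

/-- the mean of the number of new pairs -/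
theorem sum_DL (hL : 0 < L) (haL : a ≤ L) (S : Finset (Fin n)) :
    ∑ lab : Sym2 (Fin n) → Fin L, ((yn (low lab a) S : ℝ) - xn (low lab a)) =
      (S.card * S.card - S.card) * (1 - (a : ℝ) / L) * Fintype.card (Sym2 (Fin n) → Fin L) := by
  have h1 : ∀ lab : Sym2 (Fin n) → Fin L, (yn (low lab a) S : ℝ) - xn (low lab a) =
      ∑ p ∈ S.offDiag, (1 - (a : ℝ) / L - v a L (lab s(p.1, p.2))) := by
    intro lab
    rw [ynL_eq]
    ring
  simp only [h1]
  rw [sum_comm]
  have h2 : ∀ p : Fin n × Fin n,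
      ∑ lab : Sym2 (Fin n) → Fin L, (1 - (a : ℝ) / L - v a L (lab s(p.1, p.2))) =
      (1 - (a : ℝ) / L) * Fintype.card (Sym2 (Fin n) → Fin L) := by
    intro p
    rw [sum_sub_distrib, sum_one _ _ (sum_v hL haL), sum_const, card_univ, nsmul_eq_mul]
    ring
  simp only [h2]
  rw [sum_const, offDiag_card, nsmul_eq_mul, Nat.cast_sub (Nat.le_mul_self _), Nat.cast_mul]
  ring

/-- the second moment -/
theorem sum_ZL (hL : 0 < L) (haL : a ≤ L) : ∑ lab : Sym2 (Fin n) → Fin L, ZL a lab ^ 2 ≤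
    2 * (n : ℝ) ^ 2 * (1 - (a : ℝ) / L) * Fintype.card (Sym2 (Fin n) → Fin L) := by
  have hLr : (0 : ℝ) < L := by exact_mod_cast hL
  have hp1 : (a : ℝ) / L ≤ 1 := by
    rw [div_le_one hLr]
    exact_mod_cast haL
  have hp0 : 0 ≤ (a : ℝ) / L := by positivity
  set p : ℝ := (a : ℝ) / L with hp
  set CU : ℝ := ((Fintype.card (Sym2 (Fin n) → Fin L) : ℕ) : ℝ) with hCU
  have h7 : (0 : ℝ) ≤ CU := Nat.cast_nonneg _
  have h1 : ∑ lab : Sym2 (Fin n) → Fin L, ZL a lab ^ 2 =
      ∑ x ∈ (univ : Finset (Fin n)).offDiag, ∑ y ∈ (univ : Finset (Fin n)).offDiag,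
        ∑ lab : Sym2 (Fin n) → Fin L, v a L (lab s(x.1, x.2)) * v a L (lab s(y.1, y.2)) := by
    have h2 : ∀ lab : Sym2 (Fin n) → Fin L, ZL a lab ^ 2 = ∑ x ∈ (univ : Finset (Fin n)).offDiag,
        ∑ y ∈ (univ : Finset (Fin n)).offDiag,
          v a L (lab s(x.1, x.2)) * v a L (lab s(y.1, y.2)) := by
      intro lab
      unfold ZL
      rw [sq, sum_mul_sum]
    simp only [h2]
    rw [sum_comm]
    refine sum_congr rfl fun p _ => ?_
    rw [sum_comm]
  have h3 : ∀ x ∈ (univ : Finset (Fin n)).offDiag, ∑ y ∈ (univ : Finset (Fin n)).offDiag,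
        ∑ lab : Sym2 (Fin n) → Fin L, v a L (lab s(x.1, x.2)) * v a L (lab s(y.1, y.2)) ≤
      2 * (p * (1 - p) * CU) := by
    intro x _
    have h4 : ∀ y : Fin n × Fin n,
        ∑ lab : Sym2 (Fin n) → Fin L, v a L (lab s(x.1, x.2)) * v a L (lab s(y.1, y.2)) =
        if s(x.1, x.2) = s(y.1, y.2) then p * (1 - p) * CU else 0 := by
      intro y
      split_ifs with h
      · rw [← h]
        simp only [v_sq]
        rw [sum_add_distrib, ← mul_sum, sum_one _ _ (sum_v hL haL), sum_const, card_univ,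
          nsmul_eq_mul]
        ring
      · exact sum_two h _ (sum_v hL haL)
    simp only [h4]
    rw [← sum_filter, sum_const, nsmul_eq_mul]
    have h5 : ((univ : Finset (Fin n)).offDiag.filter
        (fun y => s(x.1, x.2) = s(y.1, y.2))).card ≤ 2 := by
      refine (card_le_card ?_).trans (card_le_two (a := x) (b := x.swap))
      intro y hy
      rw [mem_filter] at hy
      rw [mem_insert, mem_singleton]
      rcases Sym2.eq_iff.mp hy.2 with h | h
      · left
        exact Prod.ext h.1.symm h.2.symm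
      · right
        exact Prod.ext h.2.symm h.1.symm
    have h6 : (((univ : Finset (Fin n)).offDiag.filter
        (fun y => s(x.1, x.2) = s(y.1, y.2))).card : ℝ) ≤ 2 := by exact_mod_cast h5
    have h8 : 0 ≤ p * (1 - p) * CU := mul_nonneg (mul_nonneg hp0 (by linarith)) h7
    exact mul_le_mul_of_nonneg_right h6 h8
  rw [h1]
  refine (sum_le_sum h3).trans ?_
  rw [sum_const, nsmul_eq_mul, card_off]
  have h8 : (0 : ℝ) ≤ n := Nat.cast_nonneg n
  have h9 : 0 ≤ (1 - p) * CU := mul_nonneg (by linarith) h7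
  have h10 : p * (1 - p) * CU ≤ (1 - p) * CU := by
    rw [mul_assoc]
    exact mul_le_of_le_one_left h9 hp1
  have h11 : (n : ℝ) * n - n ≤ n ^ 2 := by nlinarith
  have h12 : 0 ≤ p * (1 - p) * CU := by
    rw [mul_assoc]
    exact mul_nonneg hp0 h9
  calc ((n : ℝ) * n - n) * (2 * (p * (1 - p) * CU)) ≤ n ^ 2 * (2 * (p * (1 - p) * CU)) :=
        mul_le_mul_of_nonneg_right h11 (by linarith)
    _ ≤ n ^ 2 * (2 * ((1 - p) * CU)) := mul_le_mul_of_nonneg_left (by linarith) (by positivity)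
    _ = _ := by ring

/-- Chebyshev -/
theorem card_badL (hn : 0 < n) (hL : 0 < L) (haL : a ≤ L) :
    ((univ.filter (fun lab : Sym2 (Fin n) → Fin L => 2 * (n : ℝ) < |ZL a lab|)).card : ℝ) ≤
      (1 - (a : ℝ) / L) * Fintype.card (Sym2 (Fin n) → Fin L) / 2 := by
  have hn0 : (0 : ℝ) < n := by exact_mod_cast hn
  have h1 : ((univ.filter (fun lab : Sym2 (Fin n) → Fin L => 2 * (n : ℝ) < |ZL a lab|)).card : ℝ) *
      (4 * (n : ℝ) ^ 2) ≤ ∑ lab : Sym2 (Fin n) → Fin L, ZL a lab ^ 2 := by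
    rw [← nsmul_eq_mul, ← sum_const]
    refine (sum_le_sum fun U hU => ?_).trans
      (sum_le_sum_of_subset_of_nonneg (filter_subset _ univ) fun U _ _ => sq_nonneg (ZL a U))
    rw [mem_filter] at hU
    rw [← sq_abs (ZL a U)]
    nlinarith [hU.2]
  have h2 := h1.trans (sum_ZL hL haL)
  have h3 : (0 : ℝ) < 4 * (n : ℝ) ^ 2 := by positivity
  rw [← le_div_iff₀ h3] at h2
  refine h2.trans (le_of_eq ?_)
  field_simp
  ring

end counts

theorem labelGraph_eq {n L : ℕ} (lab : Sym2 (Fin n) → Fin L) (a : ℕ) :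
    labelGraph lab a = gr (low lab a) := by
  ext u v
  simp only [labelGraph, gr, low, mem_filter, mem_univ, true_and]

/-- (S1L) -/
theorem stCountL : StCountL := by
  classical
  refine ⟨1 / 32, by norm_num, ?_⟩
  intro n k a L hk hkn ha haL
  have hL : 0 < L := by omega
  have hLr : (0 : ℝ) < L := by exact_mod_cast hL
  have hn4 : 4 ≤ n := by nlinarith
  have hnr : (4 : ℝ) ≤ n := by exact_mod_cast hn4
  have hkr : (2 : ℝ) ≤ k := by exact_mod_cast hk
  have hknr : (k : ℝ) ^ 2 ≤ n := by exact_mod_cast hkn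
  have hkn' : k ≤ n := by nlinarith
  set p : ℝ := (a : ℝ) / L with hp
  have hp1 : p ≤ 1 := by
    rw [hp, div_le_one hLr]
    exact_mod_cast haL
  have hp0 : 0 ≤ p := by positivity
  set XX := {S : Finset (Fin n) // S.card = k} with hXX
  have hne : Nonempty XX := by
    obtain ⟨S, hS⟩ := Finset.exists_subset_card_eq (s := (univ : Finset (Fin n))) (n := k)
      (by rw [card_univ, Fintype.card_fin]; exact hkn')
    exact ⟨⟨S, hS.2⟩⟩
  have hneF : Nonempty (Fin L) := ⟨⟨0, hL⟩⟩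
  set CU : ℝ := ((Fintype.card (Sym2 (Fin n) → Fin L) : ℕ) : ℝ) with hCU
  set CX : ℝ := ((Fintype.card XX : ℕ) : ℝ) with hCX
  have hCU0 : 0 < CU := by rw [hCU]; exact_mod_cast Fintype.card_pos
  have hCX0 : 0 < CX := by rw [hCX]; exact_mod_cast Fintype.card_pos
  set M : ℕ := k * k - k with hM
  have hMr : (M : ℝ) = k * k - k := by
    rw [hM, Nat.cast_sub (Nat.le_mul_self k), Nat.cast_mul]
  have hmean0 : 0 ≤ ((n : ℝ) * n - n) * p := mul_nonneg (by nlinarith) hp0
  set μ : ℕ := ⌊((n : ℝ) * n - n) * p⌋₊ with hμ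
  have hμ1 : (μ : ℝ) ≤ ((n : ℝ) * n - n) * p := Nat.floor_le hmean0
  have hμ2 : ((n : ℝ) * n - n) * p < μ + 1 := Nat.lt_floor_add_one _
  set lo := μ - 2 * n with hlo
  set hi := μ + 3 * n + 1 with hhi
  -- the bad outcomes
  have hbad : ∀ (lab : Sym2 (Fin n) → Fin L) (S : XX),
      (xn (low lab a) + 1 < lo ∨ hi < yn (low lab a) S.1) → 2 * (n : ℝ) < |ZL a lab| := by
    intro lab S h
    have h1 := xnL_eq (a := a) lab
    rw [← hp] at h1
    rcases h with h | h
    · have h2 : xn (low lab a) + 1 + 2 * n < μ := by omega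
      have h3 : (xn (low lab a) : ℝ) + 1 + 2 * n < μ := by exact_mod_cast h2
      rw [lt_abs]
      right
      linarith
    · have h2 := (yn_bounds (low lab a) S.1).2
      rw [S.2] at h2
      have h3 : μ + 3 * n + 1 < xn (low lab a) + M := by omega
      have h4 : (μ : ℝ) + 3 * n + 1 < xn (low lab a) + M := by exact_mod_cast h3
      rw [lt_abs]
      left
      nlinarith
  -- the sum over all outcomes and all thresholds
  have hsum : (1 - p) / 2 * M * (CU * CX) ≤ ∑ θ ∈ Icc lo hi, ∑ x : (Sym2 (Fin n) → Fin L) × XX,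
      ((if θ ≤ yn (low x.1 a) x.2.1 then (1 : ℝ) else 0) -
        if θ ≤ xn (low x.1 a) then 1 else 0) := by
    rw [sum_comm]
    have h1 : ∀ x : (Sym2 (Fin n) → Fin L) × XX,
        ((yn (low x.1 a) x.2.1 : ℝ) - xn (low x.1 a)) -
        M * (if 2 * (n : ℝ) < |ZL a x.1| then 1 else 0) ≤
        ∑ θ ∈ Icc lo hi, ((if θ ≤ yn (low x.1 a) x.2.1 then (1 : ℝ) else 0) -
          if θ ≤ xn (low x.1 a) then 1 else 0) := by
      intro x
      have h2 := yn_bounds (low x.1 a) x.2.1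
      rw [x.2.2] at h2
      refine le_trans ?_ (one_outcome (xn (low x.1 a)) (yn (low x.1 a) x.2.1) M lo hi h2.1 h2.2)
      refine sub_le_sub_left (mul_le_mul_of_nonneg_left ?_ (Nat.cast_nonneg M)) _
      by_cases h3 : xn (low x.1 a) + 1 < lo ∨ hi < yn (low x.1 a) x.2.1
      · rw [if_pos h3, if_pos (hbad x.1 x.2 h3)]
      · rw [if_neg h3]
        split_ifs <;> norm_num
    refine le_trans ?_ (sum_le_sum fun x _ => h1 x)
    rw [sum_sub_distrib, ← mul_sum, Fintype.sum_prod_type_right, Fintype.sum_prod_type]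
    have h3 : ∑ S : XX, ∑ lab : Sym2 (Fin n) → Fin L,
        ((yn (low lab a) S.1 : ℝ) - xn (low lab a)) = M * (1 - p) * CU * CX := by
      have h4 : ∀ S : XX, ∑ lab : Sym2 (Fin n) → Fin L,
          ((yn (low lab a) S.1 : ℝ) - xn (low lab a)) = M * (1 - p) * CU := by
        intro S
        rw [sum_DL hL haL, S.2, hMr]
      simp only [h4]
      rw [sum_const, card_univ, nsmul_eq_mul]
      ring
    have h5 : ∑ lab : Sym2 (Fin n) → Fin L, ∑ _S : XX,
        (if 2 * (n : ℝ) < |ZL a lab| then (1 : ℝ) else 0) ≤ (1 - p) * CU / 2 * CX := by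
      simp only [sum_const, card_univ, nsmul_eq_mul]
      rw [← mul_sum, Finset.sum_boole]
      have := card_badL (n := n) (a := a) (L := L) (by omega) hL haL
      rw [← hp, ← hCU] at this
      nlinarith
    have h6 : (0 : ℝ) ≤ M := Nat.cast_nonneg M
    have h7 := mul_le_mul_of_nonneg_left h5 h6
    show _ ≤ ∑ S : XX, ∑ lab : Sym2 (Fin n) → Fin L,
        ((yn (low lab a) S.1 : ℝ) - xn (low lab a)) -
      M * ∑ lab : Sym2 (Fin n) → Fin L, ∑ _S : XX,
        (if 2 * (n : ℝ) < |ZL a lab| then (1 : ℝ) else 0)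
    rw [h3]
    linarith
  -- a good threshold
  have hcard : ((Icc lo hi).card : ℝ) ≤ 6 * n := by
    rw [Nat.card_Icc]
    have : hi + 1 - lo ≤ 6 * n := by omega
    exact_mod_cast this
  obtain ⟨θ, hθ, hθ2⟩ : ∃ θ ∈ Icc lo hi, M * (1 - p) / (12 * n) * (CU * CX) ≤
      ∑ x : (Sym2 (Fin n) → Fin L) × XX,
        ((if θ ≤ yn (low x.1 a) x.2.1 then (1 : ℝ) else 0) -
          if θ ≤ xn (low x.1 a) then 1 else 0) := by
    by_contra hcon
    push Not at hcon
    have hIne : (Icc lo hi).Nonempty := ⟨hi, mem_Icc.mpr ⟨by omega, le_refl _⟩⟩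
    have h1 := sum_lt_sum_of_nonempty hIne hcon
    rw [sum_const, nsmul_eq_mul] at h1
    have h0 : 0 ≤ M * (1 - p) / (12 * n) * (CU * CX) :=
      mul_nonneg (div_nonneg (mul_nonneg (Nat.cast_nonneg _) (by linarith)) (by positivity))
        (by positivity)
    have h2 : ((Icc lo hi).card : ℝ) * (M * (1 - p) / (12 * n) * (CU * CX)) ≤
        6 * n * (M * (1 - p) / (12 * n) * (CU * CX)) := mul_le_mul_of_nonneg_right hcard h0
    have h3 : 6 * n * (M * (1 - p) / (12 * n) * (CU * CX)) = (1 - p) / 2 * M * (CU * CX) := by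
      field_simp
      ring
    linarith
  refine ⟨θ, ?_⟩
  simp only [labelGraph_eq, sum_x, sum_y, Nat.cast_le]
  rw [prob_eq2, prob_eq2]
  rw [sum_sub_distrib] at hθ2
  rw [Fintype.card_prod, Nat.cast_mul, ← hCU, ← hCX]
  have h7 : ∑ x : (Sym2 (Fin n) → Fin L) × XX, (if θ ≤ xn (low x.1 a) then (1 : ℝ) else 0) =
      CX * ∑ lab : Sym2 (Fin n) → Fin L, (if θ ≤ xn (low lab a) then (1 : ℝ) else 0) := by
    rw [Fintype.sum_prod_type, mul_sum]
    refine sum_congr rfl fun U _ => ?_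
    show ∑ _S : XX, (if θ ≤ xn (low U a) then (1 : ℝ) else 0) = _
    rw [sum_const, card_univ, nsmul_eq_mul]
  rw [h7] at hθ2
  have h8 : (k : ℝ) ^ 2 / 2 ≤ M := by
    rw [hMr]
    nlinarith
  rw [div_add' _ _ _ hCU0.ne', div_le_div_iff₀ hCU0 (mul_pos hCU0 hCX0)]
  have h9 : 1 / 32 * (1 - p) ^ 2 * ((k : ℝ) ^ 2 / n) ≤ M * (1 - p) / (12 * n) := by
    have h10 : (1 - p) ^ 2 ≤ 1 - p := by nlinarith
    have h11 : 0 ≤ (k : ℝ) ^ 2 / n := by positivity
    have h12 : 1 / 32 * (1 - p) ^ 2 * ((k : ℝ) ^ 2 / n) ≤ 1 / 32 * (1 - p) * ((k : ℝ) ^ 2 / n) := by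
      gcongr
    refine h12.trans ?_
    have h13 : (k : ℝ) ^ 2 / 2 * (1 - p) / (12 * n) ≤ M * (1 - p) / (12 * n) := by
      apply div_le_div_of_nonneg_right _ (by positivity)
      exact mul_le_mul_of_nonneg_right h8 (by linarith)
    refine le_trans ?_ h13
    have h14 : (k : ℝ) ^ 2 / 2 * (1 - p) / (12 * n) = 1 / 24 * (1 - p) * ((k : ℝ) ^ 2 / n) := by
      field_simp
      ring
    rw [h14]
    gcongr
    · linarith
  have h10 : 1 / 32 * (1 - p) ^ 2 * ((k : ℝ) ^ 2 / n) * (CU * CX) ≤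
      M * (1 - p) / (12 * n) * (CU * CX) :=
    mul_le_mul_of_nonneg_right h9 (by positivity)
  nlinarith [hθ2, h10]

end Pool.Agent.T9h51.QL
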